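import Mathlib

set_option autoImplicit false

/-! Definitions: the torus, badly approximable targets, singular matrices, algebraic measures. -/

namespace Pool.Agent.R331.BA

open MeasureTheory

/-- The torus `T^m = R^m / Z^m`.  Its (sup) norm is `⟨·⟩`, the sup-norm distance to `Z^m`. -/
abbrev Torus (m : ℕ) : Type := Fin m → UnitAddCircle

/-- The point `A q` modulo `Z^m`. -/
noncomputable def orb {m n : ℕ} (A : Matrix (Fin m) (Fin n) ℝ) (q : Fin n → ℤ) : Torus m :=
  fun i => ((A.mulVec (fun j => (q j : ℝ)) i : ℝ) : UnitAddCircle)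

/-- `Bad_A`: the targets `η` with `liminf_{‖q‖ → ∞} ‖q‖^(n/m) ⟨A q - η⟩ > 0`, that is: for some
`c > 0`, all `q` of large enough norm have `‖q‖^(n/m) ⟨A q - η⟩ ≥ c`. -/
def Bad {m n : ℕ} (A : Matrix (Fin m) (Fin n) ℝ) : Set (Torus m) :=
  {η | ∃ c : ℝ, 0 < c ∧ ∃ N : ℝ, ∀ q : Fin n → ℤ, N ≤ ‖q‖ →
    c ≤ ‖q‖ ^ ((n : ℝ) / (m : ℝ)) * ‖orb A q - η‖}

/-- `A` is singular. -/
def Singular {m n : ℕ} (A : Matrix (Fin m) (Fin n) ℝ) : Prop :=
  ∀ ε : ℝ, 0 < ε → ∃ N₀ : ℝ, ∀ N : ℝ, N₀ ≤ N → ∃ q : Fin n → ℤ,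
    0 < ‖q‖ ∧ ‖q‖ ≤ N ∧ ‖orb A q‖ ≤ ε * N ^ (-((n : ℝ) / (m : ℝ)))

/-- A parametrised subtorus coset of dimension `k` in `T^m`: the coset `x + φ(T^k)`, where
`φ : T^k → T^m` is an injective continuous homomorphism, so that `φ(T^k)` is a closed connected
subgroup of dimension `k`. (Every `k`-dimensional closed connected subgroup is such an image.) -/
structure Coset (m k : ℕ) where
  /-- the base point -/
  x : Torus m
  /-- the parametrisation of the subtorus -/
  φ : Torus k →+ Torus m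
  cont : Continuous φ
  inj : Function.Injective φ

/-- The support `x + T` of the algebraic measure. -/
def Coset.supp {m k : ℕ} (C : Coset m k) : Set (Torus m) := {y | ∃ t : Torus k, y = C.x + C.φ t}

/-- The algebraic measure of dimension `k` on the coset `x + T`, `T = φ(T^k)`: the push-forward of
the Haar probability measure of `T^k` under `t ↦ x + φ t`. -/
noncomputable def Coset.haar {m k : ℕ} (C : Coset m k) : Measure (Torus m) :=
  Measure.map (fun t => C.x + C.φ t) (volume : Measure (Torus k))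

theorem norm_one (q : Fin 1 → ℤ) : ‖q‖ = |(q 0 : ℝ)| := by
  apply le_antisymm
  · rw [pi_norm_le_iff_of_nonneg (abs_nonneg _)]
    intro i
    have : i = 0 := Subsingleton.elim _ _
    subst this
    rw [Int.norm_eq_abs]
  · have := norm_le_pi_norm q 0
    rwa [Int.norm_eq_abs] at this

theorem circle_norm_le (x : ℝ) (n : ℤ) : ‖(x : UnitAddCircle)‖ ≤ |x - n| := by
  rw [UnitAddCircle.norm_eq]
  exact round_le x n

theorem circle_norm_ex (x : ℝ) : ∃ n : ℤ, ‖(x : UnitAddCircle)‖ = |x - n| :=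
  ⟨round x, UnitAddCircle.norm_eq⟩

/-- the two-by-one matrix with entries `x, y` -/
def col (x y : ℝ) : Matrix (Fin 2) (Fin 1) ℝ := fun i _ => if i = 0 then x else y

theorem orb_col (x y : ℝ) (q : Fin 1 → ℤ) :
    orb (col x y) q = ![((q 0 * x : ℝ) : UnitAddCircle), ((q 0 * y : ℝ) : UnitAddCircle)] := by
  funext i
  fin_cases i
  · simp [orb, col, Matrix.mulVec, dotProduct, mul_comm]
  · simp [orb, col, Matrix.mulVec, dotProduct, mul_comm]

theorem norm_two (x y : UnitAddCircle) : ‖(![x, y] : Torus 2)‖ = max ‖x‖ ‖y‖ := by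
  apply le_antisymm
  · rw [pi_norm_le_iff_of_nonneg (le_max_of_le_left (norm_nonneg _))]
    intro i
    fin_cases i
    · exact le_max_left _ _
    · exact le_max_right _ _
  · apply max_le
    · exact norm_le_pi_norm (![x, y] : Torus 2) 0
    · exact norm_le_pi_norm (![x, y] : Torus 2) 1

theorem orb_sub (x y u v : ℝ) (q : Fin 1 → ℤ) :
    orb (col x y) q - ![(u : UnitAddCircle), (v : UnitAddCircle)] =
      ![((q 0 * x - u : ℝ) : UnitAddCircle), ((q 0 * y - v : ℝ) : UnitAddCircle)] := by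
  rw [orb_col]
  funext i
  fin_cases i
  · simp
  · simp

/-- from a failed inequality: both coordinates are close -/
theorem close_of_lt {X Y c : ℝ} (hX : 0 ≤ X) (hY : 0 ≤ Y) (hc : 0 ≤ c)
    (h : X ^ (((1:ℕ) : ℝ) / ((2:ℕ) : ℝ)) * Y < c) : Y^2 * X < c^2 := by
  have e : X ^ (((1:ℕ) : ℝ) / ((2:ℕ) : ℝ)) = Real.sqrt X := by
    rw [Real.sqrt_eq_rpow]
    norm_num
  rw [e] at h
  have h1 : (Real.sqrt X * Y)^2 < c^2 := by
    apply pow_lt_pow_left₀ h (by positivity) (by norm_num)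
  rw [mul_pow, Real.sq_sqrt hX] at h1
  linarith [mul_comm X (Y^2)]

theorem lt_of_close {X Y c : ℝ} (hX : 0 ≤ X) (hc : 0 < c)
    (h : Y^2 * X < c^2) : X ^ (((1:ℕ) : ℝ) / ((2:ℕ) : ℝ)) * Y < c := by
  have e : X ^ (((1:ℕ) : ℝ) / ((2:ℕ) : ℝ)) = Real.sqrt X := by
    rw [Real.sqrt_eq_rpow]
    norm_num
  rw [e]
  apply lt_of_pow_lt_pow_left₀ 2 hc.le
  rw [mul_pow, Real.sq_sqrt hX]
  linarith [mul_comm X (Y^2)]

end Pool.Agent.R331.BA
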