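import Pool.Agent.R331.BA.Meas

set_option autoImplicit false

namespace Pool.Agent.R331.BA

open Filter Topology MeasureTheory Set

/-- enumeration of rationals in (0,1/4), each infinitely often -/
noncomputable def w (n : ℕ) : ℝ :=
  match (Encodable.decode (Nat.unpair n).1 : Option ℚ) with
  | some r => if 0 < r ∧ r < 1/4 then (r:ℝ) else 1/8
  | none => 1/8

theorem w_mem (n : ℕ) : 0 < w n ∧ w n < 1/4 := by
  unfold w
  split
  · rename_i r hr
    split_ifs with h
    · have h1 : (0:ℝ) < (r:ℝ) := by exact_mod_cast h.1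
      have h2 : (r:ℝ) < ((1/4 : ℚ) : ℝ) := by exact_mod_cast h.2
      push_cast at h2
      exact ⟨h1, h2⟩
    · norm_num
  · norm_num

theorem w_hit (r : ℚ) (h : 0 < r ∧ r < 1/4) (N : ℕ) : ∃ n, N ≤ n ∧ w n = r := by
  refine ⟨Nat.pair (Encodable.encode r) N, Nat.right_le_pair _ _, ?_⟩
  unfold w
  rw [Nat.unpair_pair]
  simp only [Encodable.encodek]
  rw [if_pos h]

/-- the digit chosen at step `k` from the running value -/
noncomputable def dig (k : ℕ) (t : ℝ) : ℤ := if Even k then ⌊(w (k/2) - t) / τ k⌋ else 0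

/-- running value -/
noncomputable def TT : ℕ → ℝ
  | 0 => 0
  | (k+1) => TT k + dig k (TT k) * τ k

noncomputable def dd (k : ℕ) : ℤ := dig k (TT k)

theorem T_dd (k : ℕ) : T dd k = TT k := by
  induction k with
  | zero => simp [T, TT]
  | succ k ih =>
    rw [T_succ, ih]
    rfl

theorem dd_odd (n : ℕ) : dd (2*n+1) = 0 := by
  unfold dd dig
  rw [if_neg]
  simp

theorem TT_odd (n : ℕ) : w n - τ (2*n) < TT (2*n+1) ∧ TT (2*n+1) ≤ w n := by
  have e : TT (2*n+1) = TT (2*n) + ⌊(w n - TT (2*n)) / τ (2*n)⌋ * τ (2*n) := by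
    show TT (2*n) + dig (2*n) (TT (2*n)) * τ (2*n) = _
    unfold dig
    rw [if_pos (by simp)]
    have : 2 * n / 2 = n := by omega
    rw [this]
  rw [e]
  have ht := τ_pos (2*n)
  have h1 := Int.floor_le ((w n - TT (2*n)) / τ (2*n))
  have h2 := Int.lt_floor_add_one ((w n - TT (2*n)) / τ (2*n))
  rw [le_div_iff₀ ht] at h1
  rw [div_lt_iff₀ ht] at h2
  constructor
  · linarith
  · linarith

theorem TT_even (n : ℕ) : TT (2*n+2) = TT (2*n+1) := by
  show TT (2*n+1) + dig (2*n+1) (TT (2*n+1)) * τ (2*n+1) = _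
  have : dig (2*n+1) (TT (2*n+1)) = 0 := dd_odd n
  rw [this]
  simp

theorem τ_anti (k m : ℕ) (h : k ≤ m) : τ m ≤ 4 / (3 * S k) := by
  refine (τ_hi' m).trans ?_
  have p := S_pos k
  obtain ⟨n, rfl⟩ := Nat.exists_eq_add_of_le h
  have h1 := S_shift k n
  have h2 : (1:ℝ) ≤ 4^n := one_le_pow₀ (by norm_num)
  have p2 := S_pos (k+n)
  apply div_le_div_of_nonneg_left (by norm_num) (by linarith)
  nlinarith

/-- `TT k` for `k ≥ 1` is close to `[0,1/4)` -/
theorem TT_bounds (k m : ℕ) (h : 2 * m + 1 ≤ k) : -(4 / (3 * S m)) ≤ TT k ∧ TT k < 1/4 := by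
  rcases Nat.even_or_odd' k with ⟨n, rfl | rfl⟩
  · obtain ⟨n', rfl⟩ : ∃ n', n = n' + 1 := ⟨n - 1, by omega⟩
    have e : 2 * (n'+1) = 2 * n' + 2 := by ring
    rw [e, TT_even]
    have h1 := TT_odd n'
    have h2 := w_mem n'
    have h3 := τ_anti m (2*n') (by omega)
    constructor <;> linarith
  · have h1 := TT_odd n
    have h2 := w_mem n
    have h3 := τ_anti m (2*n) (by omega)
    constructor <;> linarith

theorem TT_bounds' (k : ℕ) : -(4/3) ≤ TT k ∧ TT k < 1/4 := by
  rcases Nat.eq_zero_or_pos k with rfl | h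
  · constructor <;> norm_num [TT]
  · have h1 := TT_bounds k 0 (by omega)
    have h2 := S_pos 0
    have h3 : 4 / (3 * S 0) ≤ 4/3 := by
      apply div_le_div_of_nonneg_left (by norm_num) (by norm_num) (by linarith)
    constructor <;> linarith

theorem adm_dd : Adm dd := by
  intro k
  have hp := S_pos k
  unfold dd dig
  split_ifs with h
  · have h1 := TT_bounds' k
    have h2 := w_mem (k/2)
    have ht := τ_pos k
    have ht' := τ_lo' k
    set X := (w (k/2) - TT k) / τ k with hX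
    have h3 : |(⌊X⌋ : ℝ)| ≤ |X| + 1 := by
      have a1 := Int.floor_le X
      have a2 := Int.lt_floor_add_one X
      have a3 := abs_le.mp (le_refl |X|)
      rw [abs_le]
      constructor <;> linarith
    have h4 : |X| ≤ (19/12) * (2 * S k) := by
      rw [hX, abs_div, abs_of_pos ht, div_le_iff₀ ht]
      have a1 : |w (k/2) - TT k| ≤ 19/12 := by
        rw [abs_le]
        constructor <;> linarith
      have a2 : 1 ≤ (2 * S k) * τ k := by
        rw [div_le_iff₀ (by linarith)] at ht'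
        linarith
      nlinarith
    linarith
  · simp
    linarith

theorem eventually_small (c : ℝ) (hc : 0 < c) : ∀ᶠ m in atTop, 4 / (3 * S m) < c := by
  have := S_tendsto.eventually_gt_atTop (4 / (3 * c))
  filter_upwards [this] with m hm
  have hp := S_pos m
  rw [div_lt_iff₀ (by positivity)] at hm ⊢
  linarith

/-- points of `[9/16, 11/16]` are bad -/
theorem dd_bad {x₂ : ℝ} (hx : ∀ m, |x₂ - P dd m| ≤ 5 / S m) (u : ℝ) (hu : u ∈ Ioo (9/16 : ℝ) (11/16)) :
    (![(u : UnitAddCircle), (x₂ : UnitAddCircle)] : Torus 2) ∈ Bad (col α₁ α₂) := by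
  apply bad_of_far adm_dd hx
  obtain ⟨m, hm⟩ := (eventually_small (1/16) (by norm_num)).exists
  filter_upwards [eventually_ge_atTop (2*m+1)] with i hi n
  rw [T_dd]
  have h1 := TT_bounds i m hi
  have h2 := hu.1
  have h3 := hu.2
  rcases le_or_gt n 0 with hn | hn
  · have : (n:ℝ) ≤ 0 := by exact_mod_cast hn
    rw [le_abs]
    left
    linarith
  · have : (1:ℝ) ≤ (n:ℝ) := by exact_mod_cast hn
    rw [le_abs]
    right
    linarith

/-- points of `(0, 1/4)` are not bad -/
theorem dd_not_bad {x₂ : ℝ} (hx : ∀ m, |x₂ - P dd m| ≤ 5 / S m) (u : ℝ) (hu : u ∈ Ioo (0 : ℝ) (1/4)) :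
    (![(u : UnitAddCircle), (x₂ : UnitAddCircle)] : Torus 2) ∉ Bad (col α₁ α₂) := by
  apply not_bad adm_dd hx
  intro κ hκ
  rw [frequently_atTop]
  intro N
  have h0 := hu.1
  have h00 := hu.2
  obtain ⟨r, hr1, hr2⟩ := exists_rat_btwn (show max 0 (u - κ/2) < u by
    rw [max_lt_iff]
    exact ⟨hu.1, by linarith⟩)
  have hr0 : (0:ℝ) < r := lt_of_le_of_lt (le_max_left _ _) hr1
  have hr3 : u - κ/2 < r := lt_of_le_of_lt (le_max_right _ _) hr1
  have hrr : 0 < r ∧ r < 1/4 := by
    constructor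
    · exact_mod_cast hr0
    · have : (r:ℝ) < ((1/4 : ℚ) : ℝ) := by push_cast; linarith
      exact_mod_cast this
  obtain ⟨m, hm⟩ := (eventually_small (κ/2) (by linarith)).exists
  obtain ⟨n, hn, hwn⟩ := w_hit r hrr (max N m)
  refine ⟨2*n, by have := le_max_left N m; omega, dd_odd n, ?_, ?_⟩
  · rw [T_dd]
    have := (TT_odd n).2
    linarith
  · rw [T_dd]
    have h1 := (TT_odd n).1
    have h2 := τ_anti m (2*n) (by have := le_max_right N m; omega)
    linarith

end Pool.Agent.R331.BA
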