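import Pool.Agent.R331.BA.Seq

set_option autoImplicit false

namespace Pool.Agent.R331.BA

open Finset

noncomputable def P (d : ℕ → ℤ) (m : ℕ) : ℝ := ∑ k ∈ range m, (d k : ℝ) * σ k
noncomputable def T (d : ℕ → ℤ) (m : ℕ) : ℝ := ∑ k ∈ range m, (d k : ℝ) * τ k
def Q (d : ℕ → ℤ) (m : ℕ) : ℤ := ∑ k ∈ range m, d k * s k
def B (d : ℕ → ℤ) (m : ℕ) : ℤ := ∑ k ∈ range m, d k * b k
def Aa (d : ℕ → ℤ) (m : ℕ) : ℤ := ∑ k ∈ range m, d k * a k

theorem P_eq (d : ℕ → ℤ) (m : ℕ) : P d m = Q d m * α₂ - B d m := by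
  unfold P Q B σ S
  push_cast
  rw [Finset.sum_mul, ← Finset.sum_sub_distrib]
  exact Finset.sum_congr rfl fun k _ => by ring

theorem T_eq (d : ℕ → ℤ) (m : ℕ) : T d m = Q d m * α₁ - Aa d m := by
  unfold T Q Aa τ S
  push_cast
  rw [Finset.sum_mul, ← Finset.sum_sub_distrib]
  exact Finset.sum_congr rfl fun k _ => by ring

def Adm (d : ℕ → ℤ) : Prop := ∀ k, |(d k:ℝ)| ≤ 5 * S k

theorem Q_bound {d : ℕ → ℤ} (hd : Adm d) (m : ℕ) : |(Q d m:ℝ)| ≤ 3 * S m := by
  induction m with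
  | zero =>
    have := S_pos 0
    simp [Q]
    linarith
  | succ m ih =>
    have e : (Q d (m+1) : ℝ) = Q d m + d m * S m := by
      unfold Q S
      rw [Finset.sum_range_succ]
      push_cast
      ring
    rw [e]
    have h1 := hd m
    have p0 := S_pos m
    have h2 := S_lo m
    have h3 := S_four m
    have h4 : |(d m:ℝ) * S m| ≤ 5 * S m * S m := by
      rw [abs_mul, abs_of_pos (by linarith : 0 < S m)]
      exact mul_le_mul_of_nonneg_right h1 (by linarith)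
    have h5 := abs_add_le (Q d m:ℝ) (d m * S m)
    nlinarith

theorem P_succ (d : ℕ → ℤ) (m : ℕ) : P d (m+1) = P d m + d m * σ m := by
  unfold P
  rw [Finset.sum_range_succ]

theorem T_succ (d : ℕ → ℤ) (m : ℕ) : T d (m+1) = T d m + d m * τ m := by
  unfold T
  rw [Finset.sum_range_succ]

theorem P_step {d : ℕ → ℤ} (hd : Adm d) (m : ℕ) : |P d (m+1) - P d m| ≤ 5 / S m - 5 / S (m+1) := by
  rw [P_succ]
  have e : P d m + d m * σ m - P d m = d m * σ m := by ring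
  rw [e, abs_mul, abs_of_pos (σ_pos m)]
  have h1 := hd m
  have h2 := σ_hi m
  have h3 := σ_pos m
  have p0 := S_pos m
  have p1 := S_pos (m+1)
  have h4 : |(d m:ℝ)| * σ m ≤ 5 * S m * (2 / S (m+1)) :=
    mul_le_mul h1 h2 h3.le (by linarith)
  have h5 : 5 * S m * (2 / S (m+1)) ≤ (10/3) / S m := by
    have := S_lo m
    have e : 5 * S m * (2 / S (m+1)) = (10 * S m) / S (m+1) := by ring
    rw [e, div_le_div_iff₀ (by positivity) (by positivity)]
    nlinarith
  have h6 : 5 / S (m+1) ≤ (5/4) / S m := by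
    have := S_four m
    rw [div_le_div_iff₀ (by positivity) (by positivity)]
    nlinarith
  have e2 : 5 / S m = (10/3) / S m + (5/4) / S m + (5/12) / S m := by
    field_simp
    norm_num
  have h7 : 0 ≤ (5/12) / S m := by positivity
  linarith

theorem exists_x₂ {d : ℕ → ℤ} (hd : Adm d) : ∃ x : ℝ, ∀ m, |x - P d m| ≤ 5 / S m := by
  have hu : Monotone (fun m => P d m - 5 / S m) := by
    apply monotone_nat_of_le_succ
    intro m
    have := abs_le.mp (P_step hd m)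
    show P d m - 5 / S m ≤ P d (m+1) - 5 / S (m+1)
    linarith [this.1]
  have hU : Antitone (fun m => P d m + 5 / S m) := by
    apply antitone_nat_of_succ_le
    intro m
    have := abs_le.mp (P_step hd m)
    show P d (m+1) + 5 / S (m+1) ≤ P d m + 5 / S m
    linarith [this.2]
  obtain ⟨x, hx⟩ := nested hu hU (fun m => by
    have := S_pos m
    have : 0 ≤ 5 / S m := by positivity
    show P d m - 5 / S m ≤ P d m + 5 / S m
    linarith)
  refine ⟨x, fun m => ?_⟩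
  have := hx m
  rw [abs_le]
  constructor
  · have := this.1
    linarith
  · have := this.2
    linarith

theorem key {d : ℕ → ℤ} (hd : Adm d) {x₂ : ℝ} (hx : ∀ m, |x₂ - P d m| ≤ 5 / S m) (i : ℕ)
    (hi : 1000 ≤ S i) (q p : ℤ) (h1 : S (i+1) / 100 ≤ |(q:ℝ)|) (h2 : |(q:ℝ)| ≤ S (i+2) / 100)
    (h3 : (q * α₂ - x₂ - p)^2 * |(q:ℝ)| < (1/1000)^2) :
    ∃ n : ℤ, |q * α₁ - n - T d (i+1)| ≤ 1/8 := by
  obtain ⟨l, j, hR, hp, hj⟩ := decomp i (q - Q d (i+1)) (p - B d (i+1))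
  have hR' : (q:ℝ) - Q d (i+1) = l * S (i+1) + j * S i := by
    unfold S
    exact_mod_cast hR
  have p0 := S_pos i
  have p1 := S_pos (i+1)
  have p2 := S_pos (i+2)
  have q1 := S_lo i
  have q2 := S_lo (i+1)
  have r1 := S_hi i
  have f1 := S_four i
  have f2 := S_four (i+1)
  -- X = |q α₂ - x₂ - p|
  set X : ℝ := q * α₂ - x₂ - p with hX
  have hX1 : (S (i+1) * X)^2 ≤ (S i / 50)^2 := by
    have a1 : X^2 * (S (i+1) / 100) ≤ X^2 * |(q:ℝ)| := mul_le_mul_of_nonneg_left h1 (sq_nonneg X)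
    have a2 : X^2 * S (i+1) < 1/10000 := by nlinarith
    have a3 : (S (i+1) * X)^2 = (X^2 * S (i+1)) * S (i+1) := by ring
    rw [a3]
    have a4 : (X^2 * S (i+1)) * S (i+1) ≤ 1/10000 * (4 * (S i)^2) := by
      apply mul_le_mul a2.le r1 (by linarith) (by norm_num)
    nlinarith
  have hX2 : |S (i+1) * X| ≤ S i / 50 := abs_le_of_sq_le_sq hX1 (by linarith)
  -- the tail
  have hxi : |S (i+1) * (x₂ - P d (i+1))| ≤ 5 := by
    have := hx (i+1)
    rw [abs_mul, abs_of_pos (by linarith : 0 < S (i+1))]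
    calc S (i+1) * |x₂ - P d (i+1)| ≤ S (i+1) * (5 / S (i+1)) :=
          mul_le_mul_of_nonneg_left this (by linarith)
      _ = 5 := by field_simp
  have hQ := Q_bound hd (i+1)
  have hRb : |(q:ℝ) - Q d (i+1)| ≤ S (i+2) / 100 + 3 * S (i+1) := by
    have := abs_sub (q:ℝ) (Q d (i+1))
    linarith
  have hRs : |((q:ℝ) - Q d (i+1)) * σ (i+1)| ≤ 1 := by
    rw [abs_mul, abs_of_pos (σ_pos (i+1))]
    have h5 := σ_hi (i+1)
    have : |(q:ℝ) - Q d (i+1)| * σ (i+1) ≤ (S (i+2) / 100 + 3 * S (i+1)) * (2 / S (i+2)) :=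
      mul_le_mul hRb h5 (σ_pos (i+1)).le (by positivity)
    refine this.trans ?_
    have e : (S (i+2) / 100 + 3 * S (i+1)) * (2 / S (i+2)) = 1/50 + 6 * S (i+1) / S (i+2) := by
      field_simp
      ring
    rw [e]
    have : 6 * S (i+1) / S (i+2) ≤ 1/2 := by
      rw [div_le_div_iff₀ (by positivity) (by norm_num)]
      nlinarith
    linarith
  have hjb : |(j:ℝ)| ≤ S i / 50 + 6 := by
    have e : (j:ℝ) = S (i+1) * X + S (i+1) * (x₂ - P d (i+1)) - ((q:ℝ) - Q d (i+1)) * σ (i+1) := by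
      rw [hj, P_eq]
      push_cast
      rw [hX]
      ring
    rw [e]
    have a1 := abs_sub (S (i+1) * X + S (i+1) * (x₂ - P d (i+1))) (((q:ℝ) - Q d (i+1)) * σ (i+1))
    have a2 := abs_add_le (S (i+1) * X) (S (i+1) * (x₂ - P d (i+1)))
    linarith
  have hjt : |(j:ℝ) * τ i| ≤ 4/100 := by
    rw [abs_mul, abs_of_pos (τ_pos i)]
    have : |(j:ℝ)| * τ i ≤ (S i / 50 + 6) * (4 / (3 * S i)) :=
      mul_le_mul hjb (τ_hi' i) (τ_pos i).le (by positivity)
    refine this.trans ?_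
    have e : (S i / 50 + 6) * (4 / (3 * S i)) = 4/150 + 8 / S i := by
      field_simp
      ring
    rw [e]
    have : 8 / S i ≤ 8/1000 := by
      rw [div_le_div_iff₀ (by positivity) (by norm_num)]
      nlinarith
    linarith
  have hl : |(l:ℝ)| * S (i+1) ≤ S (i+2) / 100 + 3 * S (i+1) + (S i / 50 + 6) * S i := by
    have e : (l:ℝ) * S (i+1) = ((q:ℝ) - Q d (i+1)) - j * S i := by linarith
    have a1 : |(l:ℝ)| * S (i+1) = |(l:ℝ) * S (i+1)| := by
      rw [abs_mul, abs_of_pos (by linarith : 0 < S (i+1))]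
    rw [a1, e]
    have a2 := abs_sub ((q:ℝ) - Q d (i+1)) (j * S i)
    have a3 : |(j:ℝ) * S i| ≤ (S i / 50 + 6) * S i := by
      rw [abs_mul, abs_of_pos (by linarith : 0 < S i)]
      exact mul_le_mul_of_nonneg_right hjb (by linarith)
    linarith
  have hlt : |(l:ℝ) * τ (i+1)| ≤ 8/100 := by
    rw [abs_mul, abs_of_pos (τ_pos (i+1))]
    have a1 : |(l:ℝ)| * τ (i+1) ≤ |(l:ℝ)| * (4 * S (i+1) / S (i+2)) :=
      mul_le_mul_of_nonneg_left (τ_hi (i+1)) (abs_nonneg _)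
    refine a1.trans ?_
    have e : |(l:ℝ)| * (4 * S (i+1) / S (i+2)) = (|(l:ℝ)| * S (i+1)) * 4 / S (i+2) := by ring
    rw [e, div_le_div_iff₀ (by positivity) (by norm_num)]
    nlinarith
  refine ⟨l * a (i+1) + j * a i + Aa d (i+1), ?_⟩
  have e : (q:ℝ) * α₁ - ((l * a (i+1) + j * a i + Aa d (i+1) : ℤ) : ℝ) - T d (i+1) =
      l * τ (i+1) + j * τ i := by
    rw [T_eq]
    unfold τ
    push_cast
    linear_combination α₁ * hR'
  rw [e]
  have := abs_add_le ((l:ℝ) * τ (i+1)) (j * τ i)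
  linarith

end Pool.Agent.R331.BA
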