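import Pool.Agent.R331.BA.Key
import Pool.Agent.R331.BA.Defs

set_option autoImplicit false

namespace Pool.Agent.R331.BA

open Filter Topology

theorem S_tendsto : Tendsto S atTop atTop :=
  tendsto_atTop_mono S_pow (tendsto_pow_atTop_atTop_of_one_lt (by norm_num))

theorem exists_scale {X : ℝ} {i₀ : ℕ} (h : S (i₀+1) / 100 ≤ X) :
    ∃ i, i₀ ≤ i ∧ S (i+1) / 100 ≤ X ∧ X ≤ S (i+2) / 100 := by
  have hex : ∃ i, i₀ ≤ i ∧ X < S (i+2) / 100 := by
    have h1 : ∀ᶠ i in atTop, 100 * X + 1 ≤ S (i+2) :=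
      (S_tendsto.comp (tendsto_add_atTop_nat 2)).eventually_ge_atTop _
    obtain ⟨i, hi1, hi2⟩ := (h1.and (eventually_ge_atTop i₀)).exists
    exact ⟨i, hi2, by linarith⟩
  classical
  obtain ⟨h1, h2⟩ := Nat.find_spec hex
  refine ⟨Nat.find hex, h1, ?_, h2.le⟩
  by_contra hcon
  push Not at hcon
  rcases Nat.lt_or_ge i₀ (Nat.find hex) with h3 | h3
  · have h4 := Nat.find_min hex (m := Nat.find hex - 1) (by omega)
    apply h4
    refine ⟨by omega, ?_⟩
    have : Nat.find hex - 1 + 2 = Nat.find hex + 1 := by omega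
    rw [this]
    exact hcon
  · have : Nat.find hex = i₀ := le_antisymm h3 h1
    rw [this] at hcon
    linarith

theorem bad_of_far {d : ℕ → ℤ} (hd : Adm d) {x₂ : ℝ} (hx : ∀ m, |x₂ - P d m| ≤ 5 / S m) (u : ℝ)
    (hu : ∀ᶠ i in atTop, ∀ n : ℤ, 1/4 ≤ |u - T d i - n|) :
    (![(u : UnitAddCircle), (x₂ : UnitAddCircle)] : Torus 2) ∈ Bad (col α₁ α₂) := by
  obtain ⟨i₁, hi₁⟩ := eventually_atTop.mp hu
  obtain ⟨i₂, hi₂⟩ := eventually_atTop.mp (S_tendsto.eventually_ge_atTop 1000)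
  set i₀ := max i₁ i₂ with hi₀
  refine ⟨1/1000, by norm_num, S (i₀+1) / 100, fun q hq => ?_⟩
  by_contra hcon
  push Not at hcon
  rw [orb_sub, norm_two] at hcon
  rw [norm_one] at hcon hq
  have hpos : 1 ≤ |(q 0 : ℝ)| := by
    have h1 := hi₂ i₀ (le_max_right _ _)
    have h2 := S_four i₀
    linarith
  have hc := close_of_lt (abs_nonneg _) (le_max_of_le_left (norm_nonneg _)) (by norm_num) hcon
  obtain ⟨p, hp⟩ := circle_norm_ex (q 0 * α₂ - x₂)
  obtain ⟨n', hn'⟩ := circle_norm_ex (q 0 * α₁ - u)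
  have hc2 : (q 0 * α₂ - x₂ - p)^2 * |(q 0:ℝ)| < (1/1000)^2 := by
    refine lt_of_le_of_lt ?_ hc
    apply mul_le_mul_of_nonneg_right _ (abs_nonneg _)
    rw [← sq_abs, ← hp]
    exact pow_le_pow_left₀ (norm_nonneg _) (le_max_right _ _) 2
  have hc1 : |q 0 * α₁ - u - n'| ≤ 1/1000 := by
    rw [← hn']
    have h1 : ‖((q 0 * α₁ - u : ℝ) : UnitAddCircle)‖^2 * 1 < (1/1000)^2 := by
      refine lt_of_le_of_lt ?_ hc
      apply mul_le_mul _ hpos (by norm_num) (sq_nonneg _)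
      exact pow_le_pow_left₀ (norm_nonneg _) (le_max_left _ _) 2
    rw [mul_one] at h1
    exact (lt_of_pow_lt_pow_left₀ 2 (by norm_num) h1).le
  obtain ⟨i, hi, hs1, hs2⟩ := exists_scale hq
  obtain ⟨n, hn⟩ := key hd hx i (hi₂ i (le_trans (le_max_right _ _) hi)) (q 0) p hs1 hs2 hc2
  have hf := hi₁ (i+1) (by have := le_max_left i₁ i₂; omega) (n - n')
  have e : u - T d (i+1) - ((n - n' : ℤ) : ℝ) =
      (q 0 * α₁ - n - T d (i+1)) - (q 0 * α₁ - u - n') := by
    push_cast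
    ring
  rw [e] at hf
  have := abs_sub (q 0 * α₁ - n - T d (i+1)) (q 0 * α₁ - u - n')
  linarith

theorem not_bad {d : ℕ → ℤ} (hd : Adm d) {x₂ : ℝ} (hx : ∀ m, |x₂ - P d m| ≤ 5 / S m) (u : ℝ)
    (hu : ∀ κ : ℝ, 0 < κ → ∃ᶠ i in atTop, d (i+1) = 0 ∧ 0 ≤ u - T d (i+1) ∧ u - T d (i+1) < κ) :
    (![(u : UnitAddCircle), (x₂ : UnitAddCircle)] : Torus 2) ∉ Bad (col α₁ α₂) := by
  rintro ⟨c, hc, N, hN⟩
  obtain ⟨κ, hκ0, hκ1, hκ2⟩ : ∃ κ : ℝ, 0 < κ ∧ κ ≤ c^2 / 200 ∧ κ ≤ 1/5 :=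
    ⟨min (c^2/200) (1/5), by positivity, min_le_left _ _, min_le_right _ _⟩
  have hev : ∀ᶠ i in atTop, max N (max 1000 (100 / κ)) ≤ S i := S_tendsto.eventually_ge_atTop _
  obtain ⟨i, ⟨hd0, hu0, hu1⟩, hi⟩ := ((hu κ hκ0).and_eventually hev).exists
  have hS1 : N ≤ S i := le_trans (le_max_left _ _) hi
  have hS2 : 1000 ≤ S i := le_trans (le_max_left _ _) (le_trans (le_max_right _ _) hi)
  have hS3 : 100 / κ ≤ S i := le_trans (le_max_right _ _) (le_trans (le_max_right _ _) hi)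
  have hS3' : 100 ≤ κ * S i := by
    rw [div_le_iff₀ hκ0] at hS3
    linarith
  have p1 := S_pos (i+1)
  have p2 := S_pos (i+2)
  have f1 := S_four i
  have hκS : 100 ≤ κ * S (i+1) := by nlinarith
  set t := τ (i+1) with ht
  have ht0 : 0 < t := τ_pos (i+1)
  have ht1 := τ_lo' (i+1)
  have ht2 := τ_hi' (i+1)
  set l : ℤ := ⌊(u - T d (i+1)) / t⌋ + 4 with hl
  have hl4 : (4:ℝ) ≤ l := by
    have : (0:ℤ) ≤ ⌊(u - T d (i+1)) / t⌋ := Int.floor_nonneg.mpr (by positivity)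
    have : (4:ℤ) ≤ l := by omega
    exact_mod_cast this
  have hl1 : l * t ≤ u - T d (i+1) + 4 * t := by
    have h1 := Int.floor_le ((u - T d (i+1)) / t)
    rw [le_div_iff₀ ht0] at h1
    rw [hl]
    push_cast
    linarith
  have hl2 : u - T d (i+1) + 3 * t ≤ l * t := by
    have h1 := Int.lt_floor_add_one ((u - T d (i+1)) / t)
    rw [div_lt_iff₀ ht0] at h1
    rw [hl]
    push_cast
    linarith
  have hlb : (l:ℝ) ≤ 2 * κ * S (i+1) + 4 := by
    have h1 : (l - 4) * t ≤ κ := by linarith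
    have h2 : (l - 4) * (1 / (2 * S (i+1))) ≤ κ :=
      (mul_le_mul_of_nonneg_left ht1 (by linarith)).trans h1
    have e : (l - 4 : ℝ) * (1 / (2 * S (i+1))) = (l - 4) / (2 * S (i+1)) := by ring
    rw [e, div_le_iff₀ (by positivity)] at h2
    linarith
  set q0 : ℤ := Q d (i+1) + l * s (i+1) with hq0
  have hq0r : (q0:ℝ) = Q d (i+1) + l * S (i+1) := by
    rw [hq0]
    unfold S
    push_cast
    ring
  have hQ := abs_le.mp (Q_bound hd (i+1))
  have hqlo : S (i+1) ≤ q0 := by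
    rw [hq0r]
    nlinarith [hQ.1]
  have hqhi : (q0:ℝ) ≤ 3 * κ * (S (i+1))^2 := by
    rw [hq0r]
    have h1 : l * S (i+1) ≤ (2 * κ * S (i+1) + 4) * S (i+1) :=
      mul_le_mul_of_nonneg_right hlb (by linarith)
    have h2 : 100 * S (i+1) ≤ κ * S (i+1) * S (i+1) :=
      mul_le_mul_of_nonneg_right hκS (by linarith)
    nlinarith [hQ.2]
  have hq := hN (fun _ => q0) (by
    rw [norm_one]
    show N ≤ |(q0:ℝ)|
    rw [abs_of_nonneg (by linarith)]
    linarith)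
  rw [orb_sub, norm_two, norm_one] at hq
  have hn1 : ‖((q0 * α₁ - u : ℝ) : UnitAddCircle)‖ ≤ 6 / S (i+1) := by
    refine (circle_norm_le _ (Aa d (i+1) + l * a (i+1))).trans ?_
    have e : (q0:ℝ) * α₁ - u - ((Aa d (i+1) + l * a (i+1) : ℤ) : ℝ) = T d (i+1) + l * t - u := by
      rw [T_eq, hq0r, ht]
      unfold τ
      push_cast
      ring
    rw [e]
    have h1 : |T d (i+1) + l * t - u| ≤ 4 * t := by
      rw [abs_le]
      constructor <;> linarith
    refine h1.trans ?_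
    have h2 : 4 * t ≤ 4 * (4 / (3 * S (i+1))) := by linarith
    refine h2.trans ?_
    have e2 : 4 * (4 / (3 * S (i+1))) = (16/3) / S (i+1) := by
      field_simp
      norm_num
    rw [e2]
    apply div_le_div_of_nonneg_right (by norm_num) (by linarith)
  have hn2 : ‖((q0 * α₂ - x₂ : ℝ) : UnitAddCircle)‖ ≤ (5 * κ + 1) / S (i+1) := by
    refine (circle_norm_le _ (B d (i+1) + l * b (i+1))).trans ?_
    have e : (q0:ℝ) * α₂ - x₂ - ((B d (i+1) + l * b (i+1) : ℤ) : ℝ) =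
        l * σ (i+1) - (x₂ - P d (i+2)) := by
      have h0 : P d (i+2) = P d (i+1) := by
        rw [P_succ d (i+1), hd0]
        simp
      rw [h0, P_eq, hq0r]
      unfold σ
      push_cast
      ring
    rw [e]
    have h1 := abs_sub (l * σ (i+1)) (x₂ - P d (i+2))
    have h2 := hx (i+2)
    have h3 : |(l:ℝ) * σ (i+1)| ≤ (2 * κ * S (i+1) + 4) * (2 / S (i+2)) := by
      rw [abs_mul, abs_of_pos (σ_pos (i+1)), abs_of_nonneg (by linarith)]
      exact mul_le_mul hlb (σ_hi (i+1)) (σ_pos (i+1)).le (by positivity)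
    have h4 : (2 * κ * S (i+1) + 4) * (2 / S (i+2)) + 5 / S (i+2) = (4 * κ * S (i+1) + 13) / S (i+2) := by
      field_simp
      ring
    have h5 : (4 * κ * S (i+1) + 13) / S (i+2) ≤ (5 * κ + 1) / S (i+1) := by
      rw [div_le_div_iff₀ (by positivity) (by positivity)]
      have g1 := S_lo (i+1)
      have g2 : (5 * κ + 1) * (3 * (S (i+1))^2) ≤ (5 * κ + 1) * S (i+2) :=
        mul_le_mul_of_nonneg_left g1 (by positivity)
      nlinarith
    linarith
  have hmax : max ‖((q0 * α₁ - u : ℝ) : UnitAddCircle)‖ ‖((q0 * α₂ - x₂ : ℝ) : UnitAddCircle)‖ ≤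
      (6 + 5 * κ) / S (i+1) := by
    apply max_le
    · refine hn1.trans ?_
      apply div_le_div_of_nonneg_right (by linarith) (by linarith)
    · refine hn2.trans ?_
      apply div_le_div_of_nonneg_right (by linarith) (by linarith)
  have habs : |(q0:ℝ)| = q0 := abs_of_nonneg (by linarith)
  rw [habs] at hq
  refine absurd hq (not_le.mpr (lt_of_close (by linarith) hc ?_))
  have hmax2 : max ‖((q0 * α₁ - u : ℝ) : UnitAddCircle)‖ ‖((q0 * α₂ - x₂ : ℝ) : UnitAddCircle)‖ ≤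
      7 / S (i+1) :=
    hmax.trans (div_le_div_of_nonneg_right (by linarith) (by linarith))
  have h1 : (max ‖((q0 * α₁ - u : ℝ) : UnitAddCircle)‖ ‖((q0 * α₂ - x₂ : ℝ) : UnitAddCircle)‖)^2 *
      q0 ≤ (7 / S (i+1))^2 * (3 * κ * (S (i+1))^2) := by
    apply mul_le_mul _ hqhi (by linarith) (by positivity)
    exact pow_le_pow_left₀ (le_max_of_le_left (norm_nonneg _)) hmax2 2
  have e : (7 / S (i+1))^2 * (3 * κ * (S (i+1))^2) = 147 * κ := by
    field_simp
    norm_num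
  rw [e] at h1
  have : 0 < c^2 := by positivity
  linarith

theorem nonsingular : ¬ Singular (col α₁ α₂) := by
  intro h
  obtain ⟨N₀, hN₀⟩ := h (1/10) (by norm_num)
  obtain ⟨i, hi⟩ := (S_tendsto.eventually_ge_atTop (max N₀ 1000)).exists
  have hi1 : N₀ ≤ S i := le_trans (le_max_left _ _) hi
  have hi2 : 1000 ≤ S i := le_trans (le_max_right _ _) hi
  have p1 := S_pos (i+1)
  have p2 := S_pos (i+2)
  have f0 := S_four i
  have f1 := S_four (i+1)
  have g0 := S_lo i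
  have g1 := S_hi i
  have g2 := S_lo (i+1)
  obtain ⟨q, hq0, hqN, hq⟩ := hN₀ (S (i+1) / 2) (by linarith)
  rw [norm_one] at hq0 hqN
  have e0 : orb (col α₁ α₂) q = ![((q 0 * α₁ : ℝ) : UnitAddCircle), ((q 0 * α₂ : ℝ) : UnitAddCircle)] :=
    orb_col _ _ _
  rw [e0, norm_two] at hq
  set M := max ‖((q 0 * α₁ : ℝ) : UnitAddCircle)‖ ‖((q 0 * α₂ : ℝ) : UnitAddCircle)‖ with hM
  have hM0 : 0 ≤ M := le_max_of_le_left (norm_nonneg _)
  have hpos : 0 < S (i+1) / 2 := by linarith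
  have hMsq : M^2 * (S (i+1) / 2) ≤ (1/10)^2 := by
    have e : (S (i+1) / 2) ^ (-(((1:ℕ) : ℝ) / ((2:ℕ) : ℝ))) = (Real.sqrt (S (i+1) / 2))⁻¹ := by
      rw [Real.rpow_neg hpos.le, Real.sqrt_eq_rpow]
      norm_num
    rw [e] at hq
    have hs : 0 < Real.sqrt (S (i+1) / 2) := Real.sqrt_pos.mpr hpos
    have h1 : M * Real.sqrt (S (i+1) / 2) ≤ 1/10 := by
      have := mul_le_mul_of_nonneg_right hq hs.le
      rwa [mul_assoc, inv_mul_cancel₀ hs.ne', mul_one] at this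
    have h2 := pow_le_pow_left₀ (mul_nonneg hM0 hs.le) h1 2
    rwa [mul_pow, Real.sq_sqrt hpos.le] at h2
  obtain ⟨p, hp⟩ := circle_norm_ex (q 0 * α₂)
  have hpM : |q 0 * α₂ - p| ≤ M := by
    rw [← hp]
    exact le_max_right _ _
  obtain ⟨l, j, hR, hp', hj⟩ := decomp i (q 0) p
  have hR' : (q 0:ℝ) = l * S (i+1) + j * S i := by
    unfold S
    exact_mod_cast hR
  -- bound on j
  have hSM : |S (i+1) * (q 0 * α₂ - p)| ≤ (3/10) * S i := by
    rw [abs_mul, abs_of_pos (by linarith : 0 < S (i+1))]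
    have h1 : S (i+1) * |q 0 * α₂ - p| ≤ S (i+1) * M := mul_le_mul_of_nonneg_left hpM (by linarith)
    refine h1.trans ?_
    apply le_of_sq_le_sq _ (by linarith)
    have h2 : (S (i+1) * M)^2 = (M^2 * (S (i+1) / 2)) * (2 * S (i+1)) := by ring
    rw [h2]
    have h3 : (M^2 * (S (i+1) / 2)) * (2 * S (i+1)) ≤ (1/10)^2 * (2 * (4 * (S i)^2)) := by
      apply mul_le_mul hMsq (by linarith) (by linarith) (by norm_num)
    nlinarith
  have hRs : |(q 0:ℝ) * σ (i+1)| ≤ 1 := by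
    rw [abs_mul, abs_of_pos (σ_pos (i+1))]
    have h5 := σ_hi (i+1)
    have : |(q 0:ℝ)| * σ (i+1) ≤ (S (i+1) / 2) * (2 / S (i+2)) :=
      mul_le_mul hqN h5 (σ_pos (i+1)).le (by positivity)
    refine this.trans ?_
    have e : (S (i+1) / 2) * (2 / S (i+2)) = S (i+1) / S (i+2) := by
      field_simp
    rw [e, div_le_one (by positivity)]
    linarith
  have hjb : |(j:ℝ)| ≤ (3/10) * S i + 1 := by
    rw [hj]
    have := abs_sub (S (i+1) * (q 0 * α₂ - p)) (q 0 * σ (i+1))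
    linarith
  have hjS : |(j:ℝ) * S i| ≤ ((3/10) * S i + 1) * S i := by
    rw [abs_mul, abs_of_pos (by linarith : 0 < S i)]
    exact mul_le_mul_of_nonneg_right hjb (by linarith)
  have hl0 : l = 0 := by
    by_contra hne
    have h1 : (1:ℝ) ≤ |(l:ℝ)| := by
      have : (1:ℤ) ≤ |l| := Int.one_le_abs hne
      exact_mod_cast this
    have h2 : S (i+1) ≤ |(l:ℝ) * S (i+1)| := by
      rw [abs_mul, abs_of_pos (by linarith : 0 < S (i+1))]
      nlinarith
    have e : (l:ℝ) * S (i+1) = (q 0:ℝ) - j * S i := by linarith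
    rw [e] at h2
    have h3 := abs_sub (q 0:ℝ) (j * S i)
    nlinarith
  have hj0 : j ≠ 0 := by
    rintro rfl
    rw [hl0] at hR'
    simp at hR'
    rw [hR'] at hq0
    simp at hq0
  have hjt : |(j:ℝ) * τ i| ≤ 1/2 := by
    rw [abs_mul, abs_of_pos (τ_pos i)]
    have : |(j:ℝ)| * τ i ≤ ((3/10) * S i + 1) * (4 / (3 * S i)) :=
      mul_le_mul hjb (τ_hi' i) (τ_pos i).le (by positivity)
    refine this.trans ?_
    have e : ((3/10) * S i + 1) * (4 / (3 * S i)) = 4/10 + (4/3) / S i := by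
      have : S i ≠ 0 := by linarith
      rw [div_add_div _ _ (by norm_num) this, mul_div_assoc', div_eq_div_iff (by positivity) (by positivity)]
      ring
    rw [e]
    have : (4/3) / S i ≤ (4/3)/1000 := div_le_div_of_nonneg_left (by norm_num) (by norm_num) hi2
    linarith
  have hjt2 : 1 / (2 * S i) ≤ |(j:ℝ) * τ i| := by
    rw [abs_mul, abs_of_pos (τ_pos i)]
    have h1 : (1:ℝ) ≤ |(j:ℝ)| := by
      have : (1:ℤ) ≤ |j| := Int.one_le_abs hj0
      exact_mod_cast this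
    have := τ_lo' i
    have := τ_pos i
    nlinarith
  obtain ⟨n, hn⟩ := circle_norm_ex (q 0 * α₁)
  have hnM : |q 0 * α₁ - n| ≤ M := by
    rw [← hn]
    exact le_max_left _ _
  have e1 : (q 0:ℝ) * α₁ - n = j * τ i - ((n - j * a i : ℤ) : ℝ) := by
    rw [hl0] at hR'
    unfold τ
    push_cast at hR' ⊢
    linear_combination α₁ * hR'
  have hMi : 1 / (2 * S i) ≤ M := by
    refine le_trans ?_ hnM
    rw [e1]
    rcases eq_or_ne (n - j * a i) 0 with h0 | h0
    · rw [h0]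
      simpa using hjt2
    · have h1 : (1:ℝ) ≤ |((n - j * a i : ℤ) : ℝ)| := by
        have : (1:ℤ) ≤ |n - j * a i| := Int.one_le_abs h0
        exact_mod_cast this
      have h2 := abs_sub_abs_le_abs_sub (((n - j * a i : ℤ) : ℝ)) (j * τ i)
      rw [abs_sub_comm] at h2
      have h3 : 1 / (2 * S i) ≤ 1/2 := by
        rw [div_le_div_iff₀ (by positivity) (by norm_num)]
        linarith
      linarith
  have h9 : (1 / (2 * S i))^2 * (3 * (S i)^2 / 2) ≤ M^2 * (S (i+1) / 2) := by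
    apply mul_le_mul _ (by linarith) (by positivity) (sq_nonneg _)
    exact pow_le_pow_left₀ (by positivity) hMi 2
  have e9 : (1 / (2 * S i))^2 * (3 * (S i)^2 / 2) = 3/8 := by
    have : S i ≠ 0 := by linarith
    field_simp
    norm_num
  rw [e9] at h9
  linarith

end Pool.Agent.R331.BA
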