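import Pool.Agent.R331.BA.Main
set_option autoImplicit false
namespace Pool.Agent.R331.BA
open Filter Topology MeasureTheory Set

theorem prob_circle : IsProbabilityMeasure (volume : Measure UnitAddCircle) :=
  ⟨UnitAddCircle.measure_univ⟩

theorem prob_torus (k : ℕ) : IsProbabilityMeasure (volume : Measure (Torus k)) := by
  have := prob_circle
  infer_instance

theorem mp_one : MeasurePreserving (fun u : ℝ => (fun _ => (u : UnitAddCircle) : Torus 1))
    (volume.restrict (Ioc (0:ℝ) (0+1))) (volume : Measure (Torus 1)) := by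
  have h1 := (UnitAddCircle.measurePreserving_mk 0)
  have h2 := (MeasureTheory.volume_preserving_funUnique (Fin 1) UnitAddCircle).symm
  exact h2.comp h1

theorem hor_cont : Continuous (fun t : Torus 1 => (![t 0, 0] : Torus 2)) := by
  refine continuous_pi fun i => ?_
  fin_cases i
  · exact continuous_apply 0
  · exact continuous_const

/-- the embedding of the circle -/
def horHom : Torus 1 →+ Torus 2 where
  toFun := fun t => ![t 0, 0]
  map_zero' := by
    funext i
    fin_cases i <;> rfl
  map_add' := by
    intro a b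
    funext i
    fin_cases i
    · rfl
    · exact (add_zero (0 : UnitAddCircle)).symm

theorem horHom_inj : Function.Injective horHom := by
  intro a b h
  funext i
  have : i = 0 := Subsingleton.elim _ _
  subst this
  exact congrFun h 0

/-- the horizontal circle at height `x₂` -/
def hor (y : UnitAddCircle) : Coset 2 1 where
  x := ![0, y]
  φ := horHom
  cont := hor_cont
  inj := horHom_inj

theorem hor_apply (y : UnitAddCircle) (t : Torus 1) : (hor y).x + (hor y).φ t = ![t 0, y] := by
  funext i
  fin_cases i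
  · show (0 : UnitAddCircle) + t 0 = t 0
    exact zero_add _
  · show y + (0 : UnitAddCircle) = y
    exact add_zero _


theorem hor_meas (y : UnitAddCircle) : Measurable (fun t : Torus 1 => (hor y).x + (hor y).φ t) :=
  (continuous_const.add (hor y).cont).measurable

theorem haar_hor (y : UnitAddCircle) : (hor y).haar =
    Measure.map (fun u : ℝ => (![(u : UnitAddCircle), y] : Torus 2)) (volume.restrict (Ioc (0:ℝ) (0+1))) := by
  unfold Coset.haar
  rw [← mp_one.map_eq, Measure.map_map (hor_meas y) mp_one.measurable]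
  congr 1
  funext u
  exact hor_apply y _

theorem meas_aux (y : UnitAddCircle) : Measurable (fun u : ℝ => (![(u : UnitAddCircle), y] : Torus 2)) := by
  have h := (hor_meas y).comp mp_one.measurable
  have e : (fun u : ℝ => (![(u : UnitAddCircle), y] : Torus 2)) =
    (fun t : Torus 1 => (hor y).x + (hor y).φ t) ∘ (fun u : ℝ => (fun _ => (u : UnitAddCircle) : Torus 1)) := by
    funext u
    exact (hor_apply y (fun _ => (u : UnitAddCircle))).symm
  rw [e]
  exact h

theorem haar_lower (y : UnitAddCircle) (G : Set (Torus 2)) (a b : ℝ) (ha : 0 ≤ a) (hb : b ≤ 1)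
    (h : ∀ u ∈ Ioo a b, (![(u : UnitAddCircle), y] : Torus 2) ∈ G) :
    ENNReal.ofReal (b - a) ≤ (hor y).haar G := by
  rw [haar_hor]
  refine le_trans ?_ (Measure.le_map_apply (meas_aux y).aemeasurable G)
  have h1 : (volume.restrict (Ioc (0:ℝ) (0+1))) (Ioo a b) = ENNReal.ofReal (b - a) := by
    rw [Measure.restrict_apply measurableSet_Ioo, inter_eq_left.mpr]
    · rw [Real.volume_Ioo]
    · intro u hu
      exact ⟨by linarith [hu.1], by linarith [hu.2]⟩
  rw [← h1]
  exact measure_mono h

theorem prob_hor (y : UnitAddCircle) : IsProbabilityMeasure (hor y).haar := by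
  unfold Coset.haar
  have := prob_torus 1
  exact Measure.isProbabilityMeasure_map (hor_meas y).aemeasurable


theorem closed_aux {m : ℕ} (v : Torus m) (c X : ℝ) : IsClosed {η : Torus m | c ≤ X * ‖v - η‖} := by
  apply isClosed_le continuous_const
  have h : Continuous (fun η : Torus m => v - η) := continuous_const.sub continuous_id
  exact continuous_const.mul h.norm

theorem meas_aux2 {m : ℕ} (v : Torus m) (c X : ℝ) : MeasurableSet {η : Torus m | c ≤ X * ‖v - η‖} :=
  (closed_aux v c X).measurableSet


/-- Bad is a Borel set -/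
theorem measurableSet_Bad {m n : ℕ} (A : Matrix (Fin m) (Fin n) ℝ) : MeasurableSet (Bad A) := by
  have e : Bad A = ⋃ k : ℕ, ⋃ M : ℕ, ⋂ q : Fin n → ℤ, ⋂ _ : (M:ℝ) ≤ ‖q‖, {η : Torus m |
      1 / ((k:ℝ) + 1) ≤ ‖q‖ ^ ((n : ℝ) / (m : ℝ)) * ‖orb A q - η‖} := by
    ext η
    rw [mem_iUnion]
    constructor
    · rintro ⟨c, hc, N, hN⟩
      obtain ⟨k, hk⟩ := exists_nat_one_div_lt hc
      obtain ⟨M, hM⟩ := exists_nat_ge N
      refine ⟨k, mem_iUnion.mpr ⟨M, mem_iInter₂.mpr fun q hq => hk.le.trans (hN q (hM.trans hq))⟩⟩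
    · rintro ⟨k, h⟩
      obtain ⟨M, h⟩ := mem_iUnion.mp h
      exact ⟨1 / ((k:ℝ) + 1), by positivity, M, fun q hq => mem_iInter₂.mp h q hq⟩
  rw [e]
  exact MeasurableSet.iUnion fun k => MeasurableSet.iUnion fun M => MeasurableSet.iInter fun q =>
    MeasurableSet.iInter fun _ => meas_aux2 _ _ _

end Pool.Agent.R331.BA
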