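import Mathlib

set_option autoImplicit false

/-!
Integer sequences `s`, `a`, `b` and the real numbers `α₁`, `α₂` with
`s k α₁ - a k ≍ 1 / s k` and `s k α₂ - b k ≍ 1 / (s k)^2`, `s (k+1) ≍ (s k)^2`.
-/

namespace Pool.Agent.R331.BA

def s : ℕ → ℤ
  | 0 => 1
  | 1 => 4
  | (k+2) => 4 * (s (k+1))^2 - s k

def b : ℕ → ℤ
  | 0 => 0
  | 1 => 1
  | (k+2) => 4 * s (k+1) * b (k+1) - b k

def a : ℕ → ℤ
  | 0 => 0
  | 1 => 2
  | (k+2) => 4 * s (k+1) * a (k+1) - a k + 2

theorem s_rec (k : ℕ) : s (k+2) = 4 * (s (k+1))^2 - s k := rfl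
theorem b_rec (k : ℕ) : b (k+2) = 4 * s (k+1) * b (k+1) - b k := rfl
theorem a_rec (k : ℕ) : a (k+2) = 4 * s (k+1) * a (k+1) - a k + 2 := rfl

theorem s_basic (k : ℕ) : 1 ≤ s k ∧ 3 * (s k)^2 ≤ s (k+1) ∧ s (k+1) ≤ 4 * (s k)^2 ∧ 4 * s k ≤ s (k+1) := by
  induction k with
  | zero => decide
  | succ k ih =>
    obtain ⟨h1, h2, h3, h4⟩ := ih
    rw [s_rec k]
    have h5 : 4 ≤ s (k+1) := by linarith
    refine ⟨by linarith, ?_, by linarith, ?_⟩
    · nlinarith
    · nlinarith

theorem det_b (k : ℕ) : s k * b (k+1) - b k * s (k+1) = 1 := by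
  induction k with
  | zero => decide
  | succ k ih =>
    rw [s_rec k, b_rec k]
    linarith

/-- `c k = s k * a (k+1) - a k * s (k+1)` -/
theorem c_bounds (k : ℕ) : 2 * s k ≤ s k * a (k+1) - a k * s (k+1) ∧
    s k * a (k+1) - a k * s (k+1) ≤ 3 * s k := by
  induction k with
  | zero => decide
  | succ k ih =>
    obtain ⟨h1, h2⟩ := ih
    obtain ⟨g1, g2, g3, g4⟩ := s_basic k
    rw [s_rec k, a_rec k]
    constructor <;> nlinarith

/-- the real sequence -/
noncomputable def S (k : ℕ) : ℝ := (s k : ℝ)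

theorem S_pos (k : ℕ) : 1 ≤ S k := by
  have := (s_basic k).1
  unfold S
  exact_mod_cast this

theorem S_lo (k : ℕ) : 3 * (S k)^2 ≤ S (k+1) := by
  have := (s_basic k).2.1
  unfold S
  exact_mod_cast this

theorem S_hi (k : ℕ) : S (k+1) ≤ 4 * (S k)^2 := by
  have := (s_basic k).2.2.1
  unfold S
  exact_mod_cast this

theorem S_four (k : ℕ) : 4 * S k ≤ S (k+1) := by
  have := (s_basic k).2.2.2
  unfold S
  exact_mod_cast this

theorem S_pow (k : ℕ) : (4:ℝ)^k ≤ S k := by
  induction k with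
  | zero => simpa using S_pos 0
  | succ k ih =>
    have := S_four k
    rw [pow_succ]
    linarith

theorem S_shift (i n : ℕ) : (4:ℝ)^n * S i ≤ S (i + n) := by
  induction n with
  | zero => simp
  | succ n ih =>
    have := S_four (i+n)
    rw [pow_succ]
    have e : i + (n+1) = i + n + 1 := by ring
    rw [e]
    linarith

theorem nested {u U : ℕ → ℝ} (hu : Monotone u) (hU : Antitone U) (h : ∀ k, u k ≤ U k) :
    ∃ x : ℝ, ∀ k, u k ≤ x ∧ x ≤ U k := by
  have hb : ∀ k m, u k ≤ U m := by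
    intro k m
    exact (hu (le_max_left k m)).trans ((h _).trans (hU (le_max_right k m)))
  refine ⟨⨆ k, u k, fun k => ⟨le_ciSup ⟨U 0, ?_⟩ k, ciSup_le fun m => hb m k⟩⟩
  rintro _ ⟨m, rfl⟩
  exact hb m 0

theorem exists_alpha1 : ∃ x : ℝ, ∀ k, 2 * S k / S (k+1) ≤ S k * x - a k ∧
    S k * x - a k ≤ 4 * S k / S (k+1) := by
  have hstep : ∀ k, 2 / S (k+1) ≤ (a (k+1):ℝ) / S (k+1) - a k / S k ∧
      (a (k+1):ℝ) / S (k+1) - a k / S k ≤ 3 / S (k+1) := by
    intro k
    obtain ⟨h1, h2⟩ := c_bounds k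
    have h1' : 2 * S k ≤ S k * a (k+1) - a k * S (k+1) := by unfold S; exact_mod_cast h1
    have h2' : S k * a (k+1) - a k * S (k+1) ≤ 3 * S k := by unfold S; exact_mod_cast h2
    have p1 := S_pos k
    have p2 := S_pos (k+1)
    have e : (a (k+1):ℝ) / S (k+1) - a k / S k = (S k * a (k+1) - a k * S (k+1)) / (S k * S (k+1)) := by
      field_simp
    rw [e]
    constructor
    · rw [div_le_div_iff₀ (by positivity) (by positivity)]
      nlinarith
    · rw [div_le_div_iff₀ (by positivity) (by positivity)]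
      nlinarith
  have hu : Monotone (fun k => (a k : ℝ) / S k) := by
    apply monotone_nat_of_le_succ
    intro k
    have h1 := (hstep k).1
    have p2 := S_pos (k+1)
    have : 0 ≤ 2 / S (k+1) := by positivity
    show (a k:ℝ) / S k ≤ a (k+1) / S (k+1)
    linarith
  have hU : Antitone (fun k => (a k : ℝ) / S k + 4 / S (k+1)) := by
    apply antitone_nat_of_succ_le
    intro k
    have h1 := (hstep k).2
    have p1 := S_pos (k+1)
    have p2 := S_four (k+1)
    have h3 : 4 / S (k+2) ≤ 1 / S (k+1) := by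
      rw [div_le_div_iff₀ (by linarith) (by linarith)]
      linarith
    have e : 4 / S (k+1) = 3 / S (k+1) + 1 / S (k+1) := by ring
    show (a (k+1):ℝ) / S (k+1) + 4 / S (k+2) ≤ a k / S k + 4 / S (k+1)
    linarith
  obtain ⟨x, hx⟩ := nested hu hU (fun k => by
    have := S_pos (k+1)
    have : 0 ≤ 4 / S (k+1) := by positivity
    show (a k:ℝ) / S k ≤ a k / S k + 4 / S (k+1)
    linarith)
  refine ⟨x, fun k => ?_⟩
  have p0 : 0 < S k := by linarith [S_pos k]
  have h1 := (hx (k+1)).1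
  have h2 := (hx k).2
  have h3 := (hstep k).1
  have e : (S k * x - a k) = S k * (x - a k / S k) := by field_simp
  rw [e]
  constructor
  · have : 2 / S (k+1) ≤ x - a k / S k := by linarith
    calc 2 * S k / S (k+1) = S k * (2 / S (k+1)) := by ring
      _ ≤ _ := mul_le_mul_of_nonneg_left this p0.le
  · have : x - a k / S k ≤ 4 / S (k+1) := by linarith
    calc _ ≤ S k * (4 / S (k+1)) := mul_le_mul_of_nonneg_left this p0.le
      _ = 4 * S k / S (k+1) := by ring

theorem exists_alpha2 : ∃ x : ℝ, ∀ k, 1 / S (k+1) ≤ S k * x - b k ∧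
    S k * x - b k ≤ 2 / S (k+1) := by
  have hstep : ∀ k, (b (k+1):ℝ) / S (k+1) - b k / S k = 1 / (S k * S (k+1)) := by
    intro k
    have h1 := det_b k
    have h1' : S k * b (k+1) - b k * S (k+1) = 1 := by unfold S; exact_mod_cast h1
    have p1 := S_pos k
    have p2 := S_pos (k+1)
    have e : (b (k+1):ℝ) / S (k+1) - b k / S k = (S k * b (k+1) - b k * S (k+1)) / (S k * S (k+1)) := by
      field_simp
    rw [e, h1']
  have hu : Monotone (fun k => (b k : ℝ) / S k) := by
    apply monotone_nat_of_le_succ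
    intro k
    have h1 := hstep k
    have p1 := S_pos k
    have p2 := S_pos (k+1)
    have : 0 ≤ 1 / (S k * S (k+1)) := by positivity
    show (b k:ℝ) / S k ≤ b (k+1) / S (k+1)
    linarith
  have hU : Antitone (fun k => (b k : ℝ) / S k + 2 / (S k * S (k+1))) := by
    apply antitone_nat_of_succ_le
    intro k
    have h1 := hstep k
    have p0 := S_pos k
    have p1 := S_pos (k+1)
    have p2 := S_four (k+1)
    have p3 := S_four k
    have p4 := S_pos (k+2)
    have h3 : 2 / (S (k+1) * S (k+2)) ≤ 1 / (S k * S (k+1)) := by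
      rw [div_le_div_iff₀ (by positivity) (by positivity)]
      nlinarith
    have e : 2 / (S k * S (k+1)) = 1 / (S k * S (k+1)) + 1 / (S k * S (k+1)) := by ring
    show (b (k+1):ℝ) / S (k+1) + 2 / (S (k+1) * S (k+2)) ≤ b k / S k + 2 / (S k * S (k+1))
    linarith
  obtain ⟨x, hx⟩ := nested hu hU (fun k => by
    have := S_pos (k+1)
    have := S_pos k
    have : 0 ≤ 2 / (S k * S (k+1)) := by positivity
    show (b k:ℝ) / S k ≤ b k / S k + 2 / (S k * S (k+1))
    linarith)
  refine ⟨x, fun k => ?_⟩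
  have p0 : 0 < S k := by linarith [S_pos k]
  have p1 : 0 < S (k+1) := by linarith [S_pos (k+1)]
  have h1 := (hx (k+1)).1
  have h2 := (hx k).2
  have h3 := hstep k
  have e : (S k * x - b k) = S k * (x - b k / S k) := by field_simp
  rw [e]
  constructor
  · have : 1 / (S k * S (k+1)) ≤ x - b k / S k := by linarith
    calc 1 / S (k+1) = S k * (1 / (S k * S (k+1))) := by field_simp
      _ ≤ _ := mul_le_mul_of_nonneg_left this p0.le
  · have : x - b k / S k ≤ 2 / (S k * S (k+1)) := by linarith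
    calc _ ≤ S k * (2 / (S k * S (k+1))) := mul_le_mul_of_nonneg_left this p0.le
      _ = 2 / S (k+1) := by field_simp

noncomputable def α₁ : ℝ := exists_alpha1.choose
noncomputable def α₂ : ℝ := exists_alpha2.choose

/-- `τ k = s k α₁ - a k` -/
noncomputable def τ (k : ℕ) : ℝ := S k * α₁ - a k
/-- `σ k = s k α₂ - b k` -/
noncomputable def σ (k : ℕ) : ℝ := S k * α₂ - b k

theorem τ_lo (k : ℕ) : 2 * S k / S (k+1) ≤ τ k := (exists_alpha1.choose_spec k).1
theorem τ_hi (k : ℕ) : τ k ≤ 4 * S k / S (k+1) := (exists_alpha1.choose_spec k).2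
theorem σ_lo (k : ℕ) : 1 / S (k+1) ≤ σ k := (exists_alpha2.choose_spec k).1
theorem σ_hi (k : ℕ) : σ k ≤ 2 / S (k+1) := (exists_alpha2.choose_spec k).2

theorem τ_lo' (k : ℕ) : 1 / (2 * S k) ≤ τ k := by
  refine le_trans ?_ (τ_lo k)
  have := S_hi k
  have p0 := S_pos k
  have p1 := S_pos (k+1)
  rw [div_le_div_iff₀ (by positivity) (by positivity)]
  nlinarith

theorem τ_hi' (k : ℕ) : τ k ≤ 4 / (3 * S k) := by
  refine (τ_hi k).trans ?_
  have := S_lo k
  have p0 := S_pos k
  have p1 := S_pos (k+1)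
  rw [div_le_div_iff₀ (by positivity) (by positivity)]
  nlinarith

theorem τ_pos (k : ℕ) : 0 < τ k := by
  have := τ_lo' k
  have p0 := S_pos k
  exact lt_of_lt_of_le (by positivity) this

theorem σ_pos (k : ℕ) : 0 < σ k := by
  have := σ_lo k
  have p0 := S_pos (k+1)
  exact lt_of_lt_of_le (by positivity) this

/-- decomposition of an integer vector in the basis `(s (i+1), b (i+1))`, `(s i, b i)` -/
theorem decomp (i : ℕ) (R p : ℤ) : ∃ l j : ℤ, R = l * s (i+1) + j * s i ∧ p = l * b (i+1) + j * b i ∧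
    (j:ℝ) = S (i+1) * (R * α₂ - p) - R * σ (i+1) := by
  have hd := det_b i
  refine ⟨s i * p - b i * R, b (i+1) * R - s (i+1) * p, ?_, ?_, ?_⟩
  · linear_combination (-R) * hd
  · linear_combination (-p) * hd
  · unfold σ S
    push_cast
    ring

end Pool.Agent.R331.BA
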